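import Pool.Agent.Helper20.MH.Goals
import Pool.Agent.Helper54.OH.MLS

/-!
# Machines with several heads: the systems form a family computed in linear space
-/

set_option linter.unusedSectionVars false

namespace Pool.Agent.Helper96.MH

open Pool.Agent.Helper65.LinSpace Pool.Agent.Helper78.Mpc Pool.Agent.Helper28.Ram Finset
open Pool.Agent.Helper20.MH
open Pool.Agent.Helper54.OH (LS_tab LS_accN)

theorem catN_le (a b : ℕ) : catN a b ≤ a * b := by
  unfold catN ifz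
  split_ifs with h1 h2
  · exact Nat.zero_le _
  · exact Nat.zero_le _
  · have h3 : 2 ^ Nat.log 2 a ≤ a := Nat.pow_log_le_self 2 h1
    generalize 2 ^ Nat.log 2 a = l at h3 ⊢
    obtain ⟨b, rfl⟩ : ∃ c, b = c + 1 := ⟨b - 1, by omega⟩
    have h4 : l * b ≤ a * b := Nat.mul_le_mul_right _ h3
    rw [Nat.mul_add, Nat.mul_add, mul_one, mul_one]
    omega

theorem sdN_lt {S a : ℕ} (ha : a < 2 ^ (S + 1)) : sdN a < 2 ^ (2 * (S + 1)) := by
  have hl : Nat.log 2 a ≤ S := by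
    rcases Nat.eq_zero_or_pos a with h | h
    · rw [h]
      simp
    · have := (Nat.log_lt_iff_lt_pow (b := 2) (by norm_num) h.ne').2 ha
      omega
  unfold sdN
  have h1 : tab 2 (2 * Nat.log 2 a + 1) (fun t => ifz (t % 2) (lt01 (t / 2) (Nat.log 2 a))
      (dig 2 a (t / 2))) < 2 ^ (2 * Nat.log 2 a + 1) := by
    refine tab_lt fun t _ => ?_
    have h2 := dig_lt (q := 2) (by norm_num) a (t / 2)
    unfold ifz lt01
    split_ifs <;> omega
  have h3 : 2 ^ (2 * Nat.log 2 a + 1) + 2 ^ (2 * Nat.log 2 a + 1) ≤ 2 ^ (2 * (S + 1)) := by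
    have e : 2 ^ (2 * Nat.log 2 a + 1) + 2 ^ (2 * Nat.log 2 a + 1) =
        2 ^ (2 * Nat.log 2 a + 1 + 1) := by
      rw [pow_succ 2 (2 * Nat.log 2 a + 1)]
      ring
    rw [e]
    exact Nat.pow_le_pow_right (by norm_num) (by omega)
  unfold ifz at h1 ⊢
  split_ifs at h1 ⊢ with h2
  · positivity
  · omega

section bounds

variable (m : Prm)

theorem vi_lt (v i : ℕ) : m.vi v i < 2 ^ (m.S + 1) := dig_lt (by positivity) _ _

theorem vec_le (v i : ℕ) :
    nrec 1 (fun i r => catN r (sdN (m.vi v i))) i ≤ (2 ^ (2 * (m.S + 1))) ^ i := by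
  induction i with
  | zero => simp
  | succ i ih =>
    rw [nrec_succ, pow_succ]
    exact (catN_le _ _).trans (Nat.mul_le_mul ih (sdN_lt (vi_lt m v i)).le)

theorem cq_lt (q k : ℕ) : m.cq q k < 2 ^ m.κ := dig_lt (by positivity) _ _

theorem pl_le (u k : ℕ) : Prm.pl u k ≤ 1 := by
  unfold Prm.pl eq01
  split_ifs <;> omega

end bounds

variable {α β : Type} [Ctx α] [Ctx β]

theorem pfm_comp {m : α → Prm} {C : α → ℕ} (h : PFM m C) {π : β → α} (hπ : LS π) :
    PFM (fun b => m (π b)) (fun b => C (π b)) where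
  eA := LS.comp (g := fun z => (m z).eA) h.eA hπ
  eN := LS.comp (g := fun z => (m z).eN) h.eN hπ
  eW := LS.comp (g := fun z => (m z).eW) h.eW hπ
  st := LS.comp (g := fun z => (m z).st) h.st hπ
  x := LS.comp (g := fun z => (m z).x) h.x hπ
  y := LS.comp (g := fun z => (m z).y) h.y hπ
  hΛ := LS.comp (g := fun z => (m z).Λ) h.hΛ hπ
  hβ := LS.comp (g := fun z => (m z).β) h.hβ hπ
  hB := LS.comp (g := fun z => (m z).B) h.hB hπ
  D := LS.comp (g := fun z => (m z).D) h.D hπ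
  K := LS.comp (g := fun z => (m z).K) h.K hπ
  tp := LS.comp (g := fun z => (m z).tp) h.tp hπ
  S := LS.comp (g := fun z => (m z).S) h.S hπ
  κ := LS.comp (g := fun z => (m z).κ) h.κ hπ
  c := LS.comp (g := fun z => (m z).c) h.c hπ
  R := LS.comp (g := fun z => (m z).R) h.R hπ
  bd := LS.comp (g := C) h.bd hπ
  b1 := fun z => h.b1 (π z)
  b2 := fun z => h.b2 (π z)
  b3 := fun z => h.b3 (π z)
  b4 := fun z => h.b4 (π z)
  b5 := fun z => h.b5 (π z)
  b6 := fun z => h.b6 (π z)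
  b7 := fun z => h.b7 (π z)
  hC1 := fun z => h.hC1 (π z)
  hC2 := fun z => h.hC2 (π z)
  hC3 := fun z => h.hC3 (π z)

section fam

variable {m : α → Prm} {C : α → ℕ} (h : PFM m C)
include h

theorem a_le (z : α) : 2 ^ ((m z).S + 1 + (m z).κ * ((m z).K * (m z).D) +
    (m z).c * ((m z).K * ((m z).S + 1))) ≤ C z := by
  refine le_trans (Nat.pow_le_pow_right (by norm_num) ?_) (h.hC1 z)
  exact Nat.le_mul_of_pos_right _ (Nat.succ_pos _)

theorem bS (z : α) : 2 ^ ((m z).S + 1) ≤ C z := by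
  refine le_trans (Nat.pow_le_pow_right (by norm_num) ?_) (a_le h z)
  omega

theorem bKS (z : α) : 2 ^ ((m z).K * ((m z).S + 1)) ≤ C z := by
  refine le_trans (Nat.pow_le_pow_right (by norm_num) ?_) (a_le h z)
  have h1 : (m z).K * ((m z).S + 1) ≤ (m z).c * ((m z).K * ((m z).S + 1)) :=
    Nat.le_mul_of_pos_left _ (h.b4 z)
  omega

theorem bKD (z : α) : (2 ^ (m z).κ) ^ ((m z).K * (m z).D) ≤ C z := by
  rw [← pow_mul]
  refine le_trans (Nat.pow_le_pow_right (by norm_num) ?_) (a_le h z)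
  omega

theorem pS : LS (fun z => 2 ^ ((m z).S + 1)) :=
  LS.pow_of_le (f := fun _ => 2) (LS.const 2) (LS.add h.S (LS.const 1)) h.bd (bS h)

theorem pκ : LS (fun z => 2 ^ (m z).κ) :=
  LS.pow_of_le (f := fun _ => 2) (LS.const 2) h.κ h.bd h.b6

theorem pκ' : LS (fun z => 2 ^ ((m z).κ - 1)) :=
  LS.pow_of_le (f := fun _ => 2) (LS.const 2) (LS.sub h.κ (LS.const 1)) h.bd fun z =>
    (Nat.pow_le_pow_right (by norm_num) (Nat.sub_le _ _)).trans (h.b6 z)

theorem KD : LS (fun z => (m z).K * (m z).D) := LS.mul h.K h.D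

variable {q v k u j : α → ℕ}

theorem l_wq (hq : LS q) : LS (fun z => (m z).wq (q z)) := LS.mod hq (pS h)

theorem l_cq (hq : LS q) (hk : LS k) : LS (fun z => (m z).cq (q z) (k z)) :=
  LS.dig (pκ h) (LS.div hq (pS h)) hk

theorem l_fn {e : α → ℕ} (he : LS e) (hu : LS u) :
    LS (fun z => capN (m z).S (fnN (e z) (m z).S (m z).Λ (m z).β (m z).B (u z))) :=
  LS.capN h.S (LS.fnN he h.S h.hΛ h.hβ h.hB hu h.bd h.b1 h.b2 (bS h))

theorem l_adN (hq : LS q) : LS (fun z => (m z).adN (q z)) := l_fn h h.eA (l_wq h hq)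

theorem l_adr (hq : LS q) : LS (fun z => (m z).adr (q z)) :=
  LS.sub (l_adN h hq) (LS.pow_log (l_adN h hq))

omit h in
theorem l_lw (hu : LS u) : LS (fun z => Prm.lw (u z)) := by
  unfold Prm.lw
  fun_prop

theorem l_vi (hv : LS v) (hk : LS k) : LS (fun z => (m z).vi (v z) (k z)) := LS.dig (pS h) hv hk

theorem l_vec (hv : LS v) : LS (fun z => (m z).vec (v z)) := by
  have hc := pfm_comp h (π := fun p : α × ℕ × ℕ => p.1) LS.fst
  have hv1 : LS (fun p : α × ℕ × ℕ => v p.1) := LS.comp (g := v) hv LS.fst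
  have h1 : LS (fun p : α × ℕ × ℕ => p.2.1) := by fun_prop
  have h2 : LS (fun p : α × ℕ × ℕ => p.2.2) := by fun_prop
  have h3 : LS (fun p : α × ℕ × ℕ => catN p.2.2 (sdN ((m p.1).vi (v p.1) p.2.1))) :=
    LS.catN h2 (LS.sdN (l_vi hc hv1 h1))
  refine LS.nrec (G := fun _ => 1) (N := fun z => (m z).K) (C := fun z => C z * C z)
    (K := fun z i r => catN r (sdN ((m z).vi (v z) i))) (LS.const 1) h.K (LS.mul h.bd h.bd) h3 ?_
  intro z i hi
  refine (vec_le (m z) (v z) i).trans ?_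
  have e : (2 ^ (2 * ((m z).S + 1))) ^ i = 2 ^ (i * ((m z).S + 1)) * 2 ^ (i * ((m z).S + 1)) := by
    rw [← pow_mul, ← pow_add]
    congr 1
    ring
  have h4 : 2 ^ (i * ((m z).S + 1)) ≤ C z :=
    (Nat.pow_le_pow_right (by norm_num) (Nat.mul_le_mul_right _ hi)).trans (bKS h z)
  rw [e]
  exact Nat.mul_le_mul h4 h4

theorem l_inpN (hq : LS q) (hv : LS v) : LS (fun z => (m z).inpN (q z) (v z)) :=
  LS.catN (LS.sdN (l_wq h hq)) (LS.catN (l_lw (LS.letN h.x (l_adr h hq)))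
    (LS.catN (l_lw (LS.letN h.y (l_adr h hq))) (l_vec h hv)))

theorem l_nu (hq : LS q) (hv : LS v) : LS (fun z => (m z).nu (q z) (v z)) :=
  l_fn h h.eN (l_inpN h hq hv)

theorem l_nw (hq : LS q) (hv : LS v) (hj : LS j) : LS (fun z => (m z).nw (q z) (v z) (j z)) :=
  l_fn h h.eW (LS.catN (LS.sdN (LS.bitsN hj)) (l_inpN h hq hv))

omit h in
theorem l_pl (hu : LS u) (hk : LS k) : LS (fun z => Prm.pl (u z) (k z)) := by
  unfold Prm.pl
  fun_prop

omit h in
theorem l_mi (hu : LS u) (hk : LS k) : LS (fun z => Prm.mi (u z) (k z)) := by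
  unfold Prm.mi
  fun_prop

theorem l_viol (hq : LS q) (hu : LS u) : LS (fun z => (m z).viol (q z) (u z)) := by
  have h1 := pfm_comp h (π := fun p : α × ℕ => p.1) LS.fst
  have hq1 : LS (fun p : α × ℕ => q p.1) := LS.comp (g := q) hq LS.fst
  have hu1 : LS (fun p : α × ℕ => u p.1) := LS.comp (g := u) hu LS.fst
  have h2 : LS (fun p : α × ℕ => (m p.1).cq (q p.1) p.2) := l_cq h1 hq1 LS.snd
  have h3 : LS (fun p : α × ℕ => Prm.pl (u p.1) p.2) := l_pl hu1 LS.snd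
  have h4 : LS (fun p : α × ℕ => Prm.mi (u p.1) p.2) := l_mi hu1 LS.snd
  have h5 : LS (fun p : α × ℕ => 1 - le01 (Prm.mi (u p.1) p.2)
      ((m p.1).cq (q p.1) p.2 + Prm.pl (u p.1) p.2) *
      lt01 ((m p.1).cq (q p.1) p.2 + Prm.pl (u p.1) p.2 - Prm.mi (u p.1) p.2)
        (2 ^ (m p.1).κ)) :=
    LS.sub (LS.const 1) (LS.mul (LS.le01 h4 (LS.add h2 h3))
      (LS.lt01 (LS.sub (LS.add h2 h3) h4) (pκ h1)))
  exact LS.sum_le (N := fun z => (m z).K * (m z).D) (B := fun _ => 1)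
    (f := fun z k => 1 - le01 (Prm.mi (u z) k) ((m z).cq (q z) k + Prm.pl (u z) k) *
      lt01 ((m z).cq (q z) k + Prm.pl (u z) k - Prm.mi (u z) k) (2 ^ (m z).κ))
    h5 (KD h) (LS.const 1) (fun z i _ => Nat.sub_le _ _)

theorem l_bad (hq : LS q) (hv : LS v) : LS (fun z => (m z).bad (q z) (v z)) := by
  have h1 := pfm_comp h (π := fun p : α × ℕ => p.1) LS.fst
  have hv1 : LS (fun p : α × ℕ => v p.1) := LS.comp (g := v) hv LS.fst
  have h2 : LS (fun p : α × ℕ => eq01 ((m p.1).vi (v p.1) p.2) 0) :=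
    LS.eq01 (l_vi h1 hv1 LS.snd) (LS.const 0)
  have h3 : LS (fun z => ∑ i ∈ range (m z).K, eq01 ((m z).vi (v z) i) 0) :=
    LS.sum_le (N := fun z => (m z).K) (B := fun _ => 1)
      (f := fun z i => eq01 ((m z).vi (v z) i) 0) h2 h.K (LS.const 1) (fun z i _ => by
        unfold eq01
        split_ifs <;> omega)
  exact LS.add (LS.add (LS.add (LS.eq01 (l_adN h hq) (LS.const 0))
    (LS.eq01 (l_nu h hq hv) (LS.const 0))) (l_viol h hq (l_nu h hq hv))) h3

theorem l_tabKD {c : α → ℕ → ℕ} (hc : LS (fun p : α × ℕ => c p.1 p.2))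
    (hb : ∀ z, ∀ k < (m z).K * (m z).D, c z k ≤ 2 ^ (m z).κ) :
    LS (fun z => tab (2 ^ (m z).κ) ((m z).K * (m z).D) (c z)) :=
  LS_tab (q := fun z => 2 ^ (m z).κ) (m := fun z => (m z).K * (m z).D) (d := c) (C := C)
    (B := fun z => 2 ^ (m z).κ) hc (pκ h) (KD h) h.bd (pκ h) (fun z => by positivity) hb (bKD h)

theorem l_mk {c : α → ℕ → ℕ} (hu : LS u) (hc : LS (fun p : α × ℕ => c p.1 p.2))
    (hb : ∀ z, ∀ k < (m z).K * (m z).D, c z k ≤ 2 ^ (m z).κ) :
    LS (fun z => (m z).mk' (u z) (c z)) :=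
  LS.add hu (LS.mul (pS h) (l_tabKD h hc hb))

theorem l_fN (hq : LS q) (hv : LS v) : LS (fun z => (m z).fN (q z) (v z)) := by
  have h1 := pfm_comp h (π := fun p : α × ℕ => p.1) LS.fst
  have hq1 : LS (fun p : α × ℕ => q p.1) := LS.comp (g := q) hq LS.fst
  have hv1 : LS (fun p : α × ℕ => v p.1) := LS.comp (g := v) hv LS.fst
  have h2 : LS (fun p : α × ℕ => (m p.1).cq (q p.1) p.2) := l_cq h1 hq1 LS.snd
  have hnu : LS (fun p : α × ℕ => (m p.1).nu (q p.1) (v p.1)) := l_nu h1 hq1 hv1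
  have h3 : LS (fun p : α × ℕ => Prm.pl ((m p.1).nu (q p.1) (v p.1)) p.2) := l_pl hnu LS.snd
  have h4 : LS (fun p : α × ℕ => Prm.mi ((m p.1).nu (q p.1) (v p.1)) p.2) := l_mi hnu LS.snd
  have h5 : LS (fun z => (m z).mk' 0 ((m z).cq (q z))) :=
    l_mk h (u := fun _ => 0) (c := fun z => (m z).cq (q z)) (LS.const 0) h2
      (fun z k _ => (cq_lt (m z) _ _).le)
  have h5' : LS (fun z => (m z).mk' ((m z).wq (q z)) ((m z).cq (q z))) :=
    l_mk h (u := fun z => (m z).wq (q z)) (c := fun z => (m z).cq (q z)) (l_wq h hq) h2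
      (fun z k _ => (cq_lt (m z) _ _).le)
  have h6 : LS (fun z => (m z).mk' ((m z).nu (q z) (v z)) fun k => ((m z).cq (q z) k +
      Prm.pl ((m z).nu (q z) (v z)) k - Prm.mi ((m z).nu (q z) (v z)) k) % 2 ^ (m z).κ) :=
    l_mk h (u := fun z => (m z).nu (q z) (v z)) (c := fun z k => ((m z).cq (q z) k +
      Prm.pl ((m z).nu (q z) (v z)) k - Prm.mi ((m z).nu (q z) (v z)) k) % 2 ^ (m z).κ)
      (l_nu h hq hv) (LS.mod (LS.sub (LS.add h2 h3) h4) (pκ h1))
      (fun z k _ => (Nat.mod_lt _ (by positivity)).le)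
  exact LS.ifz (LS_accN (l_wq h hq)) (LS.ifz (l_bad h hq hv) h6 h5) h5'

theorem l_fW (hq : LS q) (hv : LS v) (hj : LS j) :
    LS (fun z => (m z).fW (q z) (v z) (j z)) :=
  LS.ifz (LS.add (LS_accN (l_wq h hq)) (l_bad h hq hv)) (l_nw h hq hv hj) (l_vi h hv hj)

theorem l_tpN (hj : LS j) : LS (fun z => (m z).tpN (j z)) :=
  LS.dig (LS.add h.K (LS.const 1)) h.tp hj

theorem l_tabD {c : α → ℕ → ℕ} (hc : LS (fun p : α × ℕ => c p.1 p.2))
    (hb : ∀ z, ∀ k < (m z).D, c z k ≤ 2 ^ (m z).κ) :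
    LS (fun z => tab (2 ^ (m z).κ) (m z).D (c z)) :=
  LS_tab (q := fun z => 2 ^ (m z).κ) (m := fun z => (m z).D) (d := c) (C := C)
    (B := fun z => 2 ^ (m z).κ) hc (pκ h) h.D h.bd (pκ h) (fun z => by positivity) hb h.b7

theorem l_cell (hq : LS q) (hj : LS j) : LS (fun z => (m z).cell (q z) (j z)) := by
  have h1 := pfm_comp h (π := fun p : α × ℕ => p.1) LS.fst
  have hq1 : LS (fun p : α × ℕ => q p.1) := LS.comp (g := q) hq LS.fst
  have hj1 : LS (fun p : α × ℕ => j p.1) := LS.comp (g := j) hj LS.fst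
  have h2 : LS (fun p : α × ℕ => (m p.1).cq (q p.1) (j p.1 * (m p.1).D + p.2)) :=
    l_cq h1 hq1 (LS.add (LS.mul hj1 h1.D) LS.snd)
  exact LS.add (l_tpN h hj) (LS.mul (LS.add h.K (LS.const 1))
    (l_tabD h (c := fun z k => (m z).cq (q z) (j z * (m z).D + k)) h2
      (fun z k _ => (cq_lt (m z) _ _).le)))

theorem l_fB (hq : LS q) : LS (fun z => (m z).fB (q z)) := by
  have h1 := pfm_comp h (π := fun p : α × ℕ => p.1) LS.fst
  have hq1 : LS (fun p : α × ℕ => q p.1) := LS.comp (g := q) hq LS.fst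
  have h2 : LS (fun p : α × ℕ => (m p.1).cq (q p.1) p.2 / (m p.1).c) :=
    LS.div (l_cq h1 hq1 LS.snd) h1.c
  exact l_tabKD h (c := fun z k => (m z).cq (q z) k / (m z).c) h2
    (fun z k _ => (Nat.div_le_self _ _).trans (cq_lt (m z) _ _).le)

theorem l_nb (hq : LS q) (hj : LS j) : LS (fun z => (m z).nb (q z) (j z)) := by
  have h1 := pfm_comp h (π := fun p : α × ℕ => p.1) LS.fst
  have hq1 : LS (fun p : α × ℕ => q p.1) := LS.comp (g := q) hq LS.fst
  have hj1 : LS (fun p : α × ℕ => j p.1) := LS.comp (g := j) hj LS.fst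
  have h2 : LS (fun p : α × ℕ =>
      dig (2 ^ (m p.1).κ) (q p.1) (j p.1 % (m p.1).K * (m p.1).D + p.2)) :=
    LS.dig (pκ h1) hq1 (LS.add (LS.mul (LS.mod hj1 h1.K) h1.D) LS.snd)
  have h3 : LS (fun p : α × ℕ => dig (3 * (m p.1).c) (j p.1 / (m p.1).K) p.2) :=
    LS.dig (LS.mul (LS.const 3) h1.c) (LS.div hj1 h1.K) LS.snd
  have h4 : LS (fun p : α × ℕ =>
      (dig (2 ^ (m p.1).κ) (q p.1) (j p.1 % (m p.1).K * (m p.1).D + p.2) * (m p.1).c +
        dig (3 * (m p.1).c) (j p.1 / (m p.1).K) p.2 - (m p.1).c) % 2 ^ (m p.1).κ) :=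
    LS.mod (LS.sub (LS.add (LS.mul h2 h1.c) h3) h1.c) (pκ h1)
  exact LS.add (l_tpN h (LS.mod hj h.K)) (LS.mul (LS.add h.K (LS.const 1))
    (l_tabD h (c := fun z k =>
      (dig (2 ^ (m z).κ) (q z) (j z % (m z).K * (m z).D + k) * (m z).c +
        dig (3 * (m z).c) (j z / (m z).K) k - (m z).c) % 2 ^ (m z).κ) h4
      (fun z k _ => (Nat.mod_lt _ (by positivity)).le)))

end fam

/-- The systems form a family computed in linear space. -/
theorem mlm (hO : OKM_stmt) : MLM_stmt := by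
  intro α _ m C h
  have h2 := pfm_comp h (π := fun p : α × ℕ × ℕ => p.1) LS.fst
  have h1 := pfm_comp h (π := fun p : α × ℕ => p.1) LS.fst
  have h3 := pfm_comp h (π := fun p : α × ℕ × ℕ × ℕ => p.1) LS.fst
  have ha2 : LS (fun p : α × ℕ × ℕ => p.2.1) := by fun_prop
  have hb2 : LS (fun p : α × ℕ × ℕ => p.2.2) := by fun_prop
  have ha3 : LS (fun p : α × ℕ × ℕ × ℕ => p.2.1) := by fun_prop
  have hb3 : LS (fun p : α × ℕ × ℕ × ℕ => p.2.2.1) := by fun_prop
  have hc3 : LS (fun p : α × ℕ × ℕ × ℕ => p.2.2.2) := by fun_prop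
  exact
    { sg := LS.add (LS.add h.S (LS.const 1)) (LS.mul h.κ (KD h))
      τ := LS.add h.S (LS.const 1)
      K := h.K
      J := LS.mul h.K (LS.pow_of_le (LS.mul (LS.const 3) h.c) h.D h.bd h.b5)
      σ := LS.add (LS.mul h.κ (KD h)) (LS.const 1)
      c := h.c
      R := h.R
      u0 := l_mk h (u := fun z => capN (m z).S (m z).st) (c := fun z _ => 2 ^ ((m z).κ - 1))
        (LS.capN h.S h.st) (LS.comp (g := fun z => 2 ^ ((m z).κ - 1)) (pκ' h) LS.fst)
        (fun z k _ => Nat.pow_le_pow_right (by norm_num) (Nat.sub_le _ _))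
      M0 := LS.const 1
      cell := l_cell h2 ha2 hb2
      N := l_fN h2 ha2 hb2
      W := l_fW h3 ha3 hb3 hc3
      B := l_fB h1 LS.snd
      nb := l_nb h2 ha2 hb2
      bd := h.bd
      ok := fun z => (hO (m z) (h.b3 z) (h.b4 z)).1
      hC1 := h.hC1
      hC2 := h.hC2
      hC3 := h.hC3 }

end Pool.Agent.Helper96.MH
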