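import Pool.Agent.Helper20.MH.Goals

/-!
# Machines with several heads: the values of the parallel machine
-/

set_option autoImplicit false

namespace Pool.Agent.Helper96.MH

open Pool.Agent.Helper65.LinSpace Pool.Agent.Helper28.Ram Finset
open Pool.Agent.Helper20.MH

variable {s : Sys}

theorem ifz_lt {c x y b : ℕ} (hx : x < b) (hy : y < b) : ifz c x y < b := by
  unfold ifz
  split_ifs <;> assumption

theorem wr_lt (h : s.Ok) (u v z : ℕ) {r : ℕ} (hr : r < 2 ^ s.τ) : s.wr u v z r < 2 ^ s.τ := by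
  unfold Sys.wr
  induction s.K with
  | zero => exact hr
  | succ n ih =>
    rw [nrec_succ]
    exact ifz_lt ih (h.hW _ _ _)

theorem conf_fst_lt (h : s.Ok) (t : ℕ) : (s.conf t).1 < 2 ^ s.sg := by
  cases t with
  | zero => exact h.hu0
  | succ t => exact h.hN _ _

theorem conf_snd_lt (h : s.Ok) (t z : ℕ) : (s.conf t).2 z < 2 ^ s.τ := by
  induction t with
  | zero => exact h.hM0
  | succ t ih => exact wr_lt h _ _ _ ih

theorem rd_lt {M : ℕ → ℕ} (hM : ∀ z, M z < 2 ^ s.τ) (u : ℕ) : s.rd M u < 2 ^ (s.K * s.τ) := by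
  have h1 := tab_lt (q := 2 ^ s.τ) (m := s.K) (d := fun i => M (s.cell u i)) fun i _ => hM _
  rw [← pow_mul, mul_comm] at h1
  exact h1

/-- the state after `t` steps from the time `t0` -/
def su (s : Sys) (t0 t : ℕ) : ℕ := (s.conf (t0 + t)).1

/-- the contents after `t` steps from the time `t0` -/
def sM (s : Sys) (t0 t : ℕ) : ℕ → ℕ := (s.conf (t0 + t)).2

/-- the contents which are read -/
def sv (s : Sys) (t0 t : ℕ) : ℕ := s.rd (sM s t0 t) (su s t0 t)

theorem su_succ (t0 t : ℕ) : su s t0 (t + 1) = s.N (su s t0 t) (sv s t0 t) := rfl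

theorem sM_succ (t0 t z : ℕ) :
    sM s t0 (t + 1) z = s.wr (su s t0 t) (sv s t0 t) z (sM s t0 t z) := rfl

theorem su_lt (h : s.Ok) (t0 t : ℕ) : su s t0 t < 2 ^ s.sg := conf_fst_lt h _

theorem sM_lt (h : s.Ok) (t0 t z : ℕ) : sM s t0 t z < 2 ^ s.τ := conf_snd_lt h _ _

theorem sv_lt (h : s.Ok) (t0 t : ℕ) : sv s t0 t < 2 ^ (s.K * s.τ) := rd_lt (sM_lt h t0 t) _

theorem replay (h : s.Ok) {t0 Z n : ℕ} (h0 : dig (2 ^ s.a) Z 0 = su s t0 0)
    (hv : ∀ t < n, s.vn Z t = sv s t0 t) : ∀ t ≤ n, s.uz Z t = su s t0 t ∧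
      ∀ z, s.ov Z t z (sM s t0 0 z) = sM s t0 t z := by
  intro t
  induction t with
  | zero =>
    intro _
    refine ⟨?_, fun z => rfl⟩
    show dig (2 ^ s.a) Z 0 % 2 ^ s.sg = _
    rw [h0, Nat.mod_eq_of_lt (su_lt h _ _)]
  | succ t ih =>
    intro ht
    obtain ⟨h1, h2⟩ := ih (by omega)
    have h3 := hv t (by omega)
    refine ⟨?_, fun z => ?_⟩
    · show s.N (s.uz Z t) (s.vn Z t) = _
      rw [h1, h3, su_succ]
    · show s.wr (s.uz Z t) (s.vn Z t) z (s.ov Z t z (sM s t0 0 z)) = _
      rw [h1, h3, h2, sM_succ]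

/-- the code of the contents of the cells of the neighbourhood `X` -/
def cV (s : Sys) (t0 t X : ℕ) : ℕ := tab (2 ^ s.τ) s.J fun j => sM s t0 t (s.nb X j)

/-- the right digests -/
def td (s : Sys) (t0 X e : ℕ) : ℕ :=
  if e = 0 then su s t0 0
  else if e ≤ s.R then tab (2 ^ (s.K * s.τ)) s.c fun r => sv s t0 ((e - 1) * s.c + r)
  else dig (2 ^ (s.c * (s.K * s.τ))) (cV s t0 0 X) (e - 1 - s.R)

theorem td_zero (t0 X : ℕ) : td s t0 X 0 = su s t0 0 := if_pos rfl

theorem td_mid {t0 X e : ℕ} (h1 : 0 < e) (h2 : e ≤ s.R) : td s t0 X e =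
    tab (2 ^ (s.K * s.τ)) s.c fun r => sv s t0 ((e - 1) * s.c + r) := by
  unfold td
  rw [if_neg (by omega), if_pos h2]

theorem td_end {t0 X e : ℕ} (h2 : s.R < e) : td s t0 X e =
    dig (2 ^ (s.c * (s.K * s.τ))) (cV s t0 0 X) (e - 1 - s.R) := by
  unfold td
  rw [if_neg (by omega), if_neg (by omega)]

theorem blkt_lt (h : s.Ok) (t0 n : ℕ) {t : ℕ} (ht : t ≤ s.c) :
    tab (2 ^ (s.K * s.τ)) t (fun r => sv s t0 (n + r)) < 2 ^ (s.c * (s.K * s.τ)) := by
  have h1 := tab_lt (q := 2 ^ (s.K * s.τ)) (m := t) (d := fun r => sv s t0 (n + r))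
    fun i _ => sv_lt h _ _
  refine h1.trans_le ?_
  rw [← pow_mul, mul_comm]
  exact Nat.pow_le_pow_right (by norm_num) (Nat.mul_le_mul_right _ ht)

theorem pow_ca (s : Sys) : 2 ^ (s.c * (s.K * s.τ)) ≤ 2 ^ s.a :=
  Nat.pow_le_pow_right (by norm_num) (Nat.le_add_left _ _)

theorem pow_sa (s : Sys) : 2 ^ s.sg ≤ 2 ^ s.a :=
  Nat.pow_le_pow_right (by norm_num) (Nat.le_add_right _ _)

theorem td_lt (h : s.Ok) (t0 X e : ℕ) : td s t0 X e < 2 ^ s.a := by
  unfold td
  split_ifs
  · exact (su_lt h _ _).trans_le (pow_sa s)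
  · exact (blkt_lt h _ _ le_rfl).trans_le (pow_ca s)
  · exact (dig_lt (by positivity) _ _).trans_le (pow_ca s)

/-- a digit of the right digests -/
theorem vn_mid (h : s.Ok) {t0 X Z t : ℕ} (ht : t / s.c < s.R)
    (hZ : dig (2 ^ s.a) Z (1 + t / s.c) = td s t0 X (1 + t / s.c)) :
    s.vn Z t = sv s t0 t := by
  unfold Sys.vn
  have h1 : 1 + t / s.c - 1 = t / s.c := Nat.add_sub_cancel_left ..
  have h2 : 1 + t / s.c ≤ s.R := by
    rw [add_comm]
    exact ht
  rw [hZ, td_mid (by rw [add_comm]; exact Nat.succ_pos _) h2,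
    dig_tab (fun i _ => sv_lt h _ _) (Nat.mod_lt _ h.hc)]
  congr 1
  rw [h1, mul_comm]
  exact Nat.div_add_mod _ _

theorem old_eq (h : s.Ok) {t0 X v z : ℕ} (hv : v / 2 ^ s.sg = cV s t0 0 X) :
    ∀ n ≤ s.J, (∃ j < n, s.nb X j = z) →
      nrec 0 (fun j r => ifz (eq01 (s.nb X j) z) r (dig (2 ^ s.τ) (v / 2 ^ s.sg) j)) n =
        sM s t0 0 z := by
  intro n
  induction n with
  | zero =>
    rintro - ⟨j, hj, -⟩
    omega
  | succ n ih =>
    rintro hn ⟨j, hj, hz⟩
    rw [nrec_succ]
    by_cases h1 : s.nb X n = z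
    · have h2 : eq01 (s.nb X n) z = 1 := if_pos h1
      rw [h2, hv]
      show dig (2 ^ s.τ) (cV s t0 0 X) n = _
      unfold cV
      rw [dig_tab (fun i _ => sM_lt h _ _ _) (by omega), h1]
    · have h2 : eq01 (s.nb X n) z = 0 := if_neg h1
      rw [h2]
      show nrec _ _ n = _
      refine ih (by omega) ⟨j, ?_, hz⟩
      rcases Nat.lt_succ_iff_lt_or_eq.1 hj with h3 | h3
      · exact h3
      · exact absurd (h3 ▸ hz) h1

theorem add_mul_div {a b q : ℕ} (ha : a < q) : (a + q * b) / q = b := by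
  rw [Nat.add_mul_div_left _ _ (by omega), Nat.div_eq_of_lt ha, zero_add]

theorem dig_dig {q m : ℕ} (V a : ℕ) {b : ℕ} (hb : b < m) :
    dig q (dig (q ^ m) V a) b = dig q V (a * m + b) := by
  have h1 : dig (q ^ m) V a = V / (q ^ m) ^ a % q ^ m := rfl
  rw [h1, dig_mod_pow _ _ hb]
  unfold dig
  rw [Nat.div_div_eq_div_mul, ← pow_mul, ← pow_add, mul_comm m a]

/-- the digits of `ext` -/
theorem dig_ext (h : s.Ok) {t0 X e w : ℕ} (he : e ≤ s.R) (hw : w < 2 ^ s.a) {i : ℕ} (hi : i ≤ e) :
    dig (2 ^ s.a) (s.ext e (tab (2 ^ s.a) e (td s t0 X)) w) i = if i = e then w else td s t0 X i := by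
  have h1 : s.ext e (tab (2 ^ s.a) e (td s t0 X)) w =
      tab (2 ^ s.a) (e + 1) (fun i => if i = e then w else td s t0 X i) := by
    unfold Sys.ext
    rw [tab_succ, if_pos rfl, min_eq_left (by omega), pow_mul, mul_comm w]
    congr 1
    refine tab_congr fun i hi => ?_
    rw [if_neg (by omega)]
  rw [h1, dig_tab _ (by omega)]
  intro i _
  split_ifs
  · exact hw
  · exact td_lt h _ _ _

section phase

variable {t0 X v : ℕ} (h : s.Ok)

include h

theorem blk_eq {e : ℕ} (h1 : 0 < e) (h2 : e ≤ s.R)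
    (hnb : ∀ r i, r < s.c → i < s.K →
      ∃ j < s.J, s.nb (s.B (su s t0 ((e - 1) * s.c))) j = s.cell (su s t0 ((e - 1) * s.c + r)) i)
    (hu : s.uz (tab (2 ^ s.a) e (td s t0 X)) ((e - 1) * s.c) = su s t0 ((e - 1) * s.c))
    (hv : v / 2 ^ s.sg = cV s t0 0 (s.B (su s t0 ((e - 1) * s.c)))) :
    s.blk e (tab (2 ^ s.a) e (td s t0 X)) v = td s t0 X e := by
  rw [td_mid h1 h2]
  set Z := tab (2 ^ s.a) e (td s t0 X) with hZ
  set n := (e - 1) * s.c with hn
  have key : ∀ t ≤ s.c, nrec 0 (fun t w => w + 2 ^ (s.K * s.τ * t) * s.rs e Z v w t) t =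
      tab (2 ^ (s.K * s.τ)) t fun r => sv s t0 (n + r) := by
    intro t
    induction t with
    | zero => intro _; rfl
    | succ t ih =>
      intro ht
      rw [nrec_succ, ih (by omega), tab_succ]
      set w := tab (2 ^ (s.K * s.τ)) t fun r => sv s t0 (n + r) with hw
      have hwa : w < 2 ^ s.a := (blkt_lt h t0 n (by omega)).trans_le (pow_ca s)
      have hdig : ∀ i ≤ e, dig (2 ^ s.a) (s.ext e Z w) i = if i = e then w else td s t0 X i :=
        fun i hi => dig_ext h h2 hwa hi
      have hrep := replay (t0 := t0) (Z := s.ext e Z w) (n := n + t) h (by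
        rw [hdig 0 (by omega), if_neg (by omega), td_zero]) (by
        intro t' ht'
        by_cases h3 : t' < n
        · have h4 : t' / s.c < e - 1 := (Nat.div_lt_iff_lt_mul h.hc).2 h3
          refine vn_mid (X := X) h (by omega) ?_
          rw [hdig _ (by omega), if_neg (by omega)]
        · have h4 : t' = s.c * (e - 1) + (t' - n) := by
            rw [mul_comm]
            omega
          have h5 : t' / s.c = e - 1 := by
            rw [h4, Nat.mul_add_div h.hc, Nat.div_eq_of_lt (by omega), add_zero]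
          have h6 : t' % s.c = t' - n := by
            conv_lhs => rw [h4]
            rw [Nat.mul_add_mod, Nat.mod_eq_of_lt (by omega)]
          unfold Sys.vn
          rw [h5, h6, hdig _ (by omega), if_pos (by omega), hw,
            dig_tab (fun i _ => sv_lt h _ _) (by omega)]
          congr 1
          omega)
      obtain ⟨h7, h8⟩ := hrep (n + t) le_rfl
      have hrs : s.rs e Z v w t = sv s t0 (n + t) := by
        unfold Sys.rs
        rw [← hn, h7, hu]
        show _ = tab (2 ^ s.τ) s.K fun i => sM s t0 (n + t) (s.cell (su s t0 (n + t)) i)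
        refine tab_congr fun i hi => ?_
        have h9 : s.old (s.B (su s t0 n)) v (s.cell (su s t0 (n + t)) i) =
            sM s t0 0 (s.cell (su s t0 (n + t)) i) :=
          old_eq h hv s.J le_rfl (hnb t i (by omega) hi)
        rw [h9, h8]
      rw [hrs, pow_mul, mul_comm (sv s t0 (n + t))]
  exact key s.c le_rfl

end phase

/-- The values of the parallel machine are right. -/
theorem tru : TRU_stmt := by
  intro s E G d h hRG hJ hnb k
  induction k with
  | zero =>
    intro x
    show s.f0 = _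
    rw [zero_mul]
    rfl
  | succ k ih =>
    intro x
    set P := s.R * s.c with hP
    set t0 := k * P with ht0
    set X := x % 2 ^ s.σ with hX
    have hXX : X % 2 ^ s.σ = X := Nat.mod_mod _ _
    have hT : ∀ y, (s.mach E G d).T k y = su s t0 0 + 2 ^ s.sg * cV s t0 0 (y % 2 ^ s.σ) := ih
    have hTd : ∀ y, (s.mach E G d).T k y / 2 ^ s.sg = cV s t0 0 (y % 2 ^ s.σ) := by
      intro y
      rw [hT, add_mul_div (su_lt h _ _)]
    have hTm : ∀ y, (s.mach E G d).T k y % 2 ^ s.sg = su s t0 0 := by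
      intro y
      rw [hT, Nat.add_mul_mod_self_left, Nat.mod_eq_of_lt (su_lt h _ _)]
    have hdt : ∀ {e i : ℕ}, i < e → dig (2 ^ s.a) (tab (2 ^ s.a) e (td s t0 X)) i = td s t0 X i :=
      fun {e i} hi => dig_tab (fun i _ => td_lt h _ _ _) hi
    have hrp : ∀ {e n : ℕ}, 0 < e → (∀ t < n, t / s.c < s.R ∧ 1 + t / s.c < e) →
        s.uz (tab (2 ^ s.a) e (td s t0 X)) n = su s t0 n ∧
          ∀ z, s.ov (tab (2 ^ s.a) e (td s t0 X)) n z (sM s t0 0 z) = sM s t0 n z := by
      intro e n he hn
      refine replay h (by rw [hdt he, td_zero]) (fun t ht => ?_) n le_rfl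
      obtain ⟨h1, h2⟩ := hn t ht
      exact vn_mid h h1 (hdt h2)
    have hZt : ∀ e, (s.mach E G d).Zt ((s.mach E G d).T k) x e = tab (2 ^ s.a) e (td s t0 X) := by
      intro e
      induction e with
      | zero => rfl
      | succ e ihe =>
        set Z := tab (2 ^ s.a) e (td s t0 X) with hZ
        have hval : s.fg x e Z ((s.mach E G d).T k (s.fq x e Z)) = td s t0 X e := by
          rcases Nat.eq_zero_or_pos e with rfl | he
          · have h1 : s.fq x 0 Z = X := rfl
            have h2 : ∀ v, s.fg x 0 Z v = v % 2 ^ s.sg % 2 ^ s.a := fun v => rfl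
            rw [h1, h2, hTm, td_zero, Nat.mod_eq_of_lt ((su_lt h _ _).trans_le (pow_sa s))]
          · by_cases heR : e ≤ s.R
            · have hle : le01 e s.R = 1 := if_pos heR
              have h1 : s.fq x e Z = s.B (s.uz Z ((e - 1) * s.c)) := by
                unfold Sys.fq
                rw [hle]
                show (if e = 0 then _ else if (1 : ℕ) = 0 then _ else _) = _
                rw [if_neg (by omega), if_neg (by omega)]
              have h2 : ∀ v, s.fg x e Z v = s.blk e Z v % 2 ^ s.a := by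
                intro v
                unfold Sys.fg
                rw [hle]
                show (if e = 0 then _ else if (1 : ℕ) = 0 then _ else _) % _ = _
                rw [if_neg (by omega), if_neg (by omega)]
              have hu : s.uz Z ((e - 1) * s.c) = su s t0 ((e - 1) * s.c) := by
                refine (hrp he fun t ht => ?_).1
                have h4 : t / s.c < e - 1 := (Nat.div_lt_iff_lt_mul h.hc).2 ht
                omega
              rw [h1, h2, hu]
              rw [blk_eq h he heR (fun r i hr hi => ?_) hu ?_]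
              · exact Nat.mod_eq_of_lt (td_lt h _ _ _)
              · rw [hTd, Nat.mod_eq_of_lt (h.hB _)]
              · have := hnb (t0 + (e - 1) * s.c) r i hr hi
                rw [add_assoc] at this
                exact this
            · have hle : le01 e s.R = 0 := if_neg heR
              have h1 : s.fq x e Z = X := by
                unfold Sys.fq
                rw [hle]
                show (if e = 0 then _ else if (0 : ℕ) = 0 then _ else _) = _
                rw [if_neg (by omega), if_pos rfl]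
              have h2 : ∀ v, s.fg x e Z v =
                  dig (2 ^ (s.c * (s.K * s.τ))) (v / 2 ^ s.sg) (e - 1 - s.R) % 2 ^ s.a := by
                intro v
                unfold Sys.fg
                rw [hle]
                show (if e = 0 then _ else if (0 : ℕ) = 0 then _ else _) % _ = _
                rw [if_neg (by omega), if_pos rfl]
              rw [h1, h2, hTd, hXX, ← td_end (by omega)]
              exact Nat.mod_eq_of_lt (td_lt h _ _ _)
        show (s.mach E G d).Zt ((s.mach E G d).T k) x e + 2 ^ (s.a * e) *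
          s.fg x e ((s.mach E G d).Zt ((s.mach E G d).T k) x e)
            ((s.mach E G d).T k (s.fq x e ((s.mach E G d).Zt ((s.mach E G d).T k) x e))) = _
        rw [ihe, hval, tab_succ, pow_mul, mul_comm (td s t0 X e)]
    have hlast : (s.mach E G d).T (k + 1) x = s.fo x (tab (2 ^ s.a) (G * E) (td s t0 X)) := by
      show s.fo x ((s.mach E G d).Zt ((s.mach E G d).T k) x (G * E)) = _
      rw [hZt]
    have hkP : (k + 1) * P = t0 + P := by
      rw [ht0]
      ring
    rw [hlast, hkP]
    obtain ⟨h1, h2⟩ := hrp (e := G * E) (n := P) (by omega) (fun t ht => by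
      have h4 : t / s.c < s.R := (Nat.div_lt_iff_lt_mul h.hc).2 ht
      omega)
    unfold Sys.fo
    rw [← hP, h1]
    show _ = su s t0 P + 2 ^ s.sg * tab (2 ^ s.τ) s.J fun j => sM s t0 P (s.nb X j)
    congr 2
    refine tab_congr fun j hj => ?_
    rw [← hX]
    have hpc : s.pc (tab (2 ^ s.a) (G * E) (td s t0 X)) j = sM s t0 0 (s.nb X j) := by
      unfold Sys.pc
      have hcK : 0 < s.c * s.K := by
        rcases Nat.eq_zero_or_pos (s.c * s.K) with h3 | h3
        · rw [h3, mul_zero] at hJ
          omega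
        · exact h3
      have hq : j / (s.c * s.K) < G * E - (1 + s.R) :=
        (Nat.div_lt_iff_lt_mul hcK).2 (by omega)
      have h5 : 2 ^ (s.c * (s.K * s.τ)) = (2 ^ s.τ) ^ (s.c * s.K) := by
        rw [← pow_mul]
        congr 1
        ring
      have h6 : 1 + s.R + j / (s.c * s.K) - 1 - s.R = j / (s.c * s.K) := by
        generalize j / (s.c * s.K) = y
        omega
      have h7 : s.R < 1 + s.R + j / (s.c * s.K) := by
        generalize j / (s.c * s.K) = y
        omega
      have h8 : 1 + s.R + j / (s.c * s.K) < G * E := by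
        generalize j / (s.c * s.K) = y at hq
        omega
      rw [hdt h8, td_end h7, h6, h5, dig_dig _ _ (Nat.mod_lt _ hcK),
        Nat.div_add_mod' j (s.c * s.K)]
      unfold cV
      rw [dig_tab (fun i _ => sM_lt h _ _ _) hj]
    rw [hpc, h2]

end Pool.Agent.Helper96.MH
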